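import Mathlib
import Pool.Graph.R_pool_sql_team_seeded_620a6dc7.H395.Sowing

/-!
# Sowing: second player strategies against nimbers

`le_of_strategy`, `ge_of_strategy`: a family `P k` of sets of rows, such that Left has good replies in
the difference of a row of `P k` and `*k`, gives `*k ≤ value`, and the mirror images give `value ≤ *k`.
-/

set_option autoImplicit false

namespace Pool.Agent.Helper52.SowNim

open Pool.Agent.H395.Sowing

/-- `Opt g h`: `g` is an option of `h` -/
inductive Opt : Game → Game → Prop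
  | left {α β : Type} (L : α → Game) (R : β → Game) (a : α) : Opt (L a) (Game.mk α β L R)
  | right {α β : Type} (L : α → Game) (R : β → Game) (b : β) : Opt (R b) (Game.mk α β L R)

theorem opt_wf : WellFounded Opt := by
  constructor
  intro g
  induction g with
  | mk α β L R ihL ihR =>
    constructor
    intro y hy
    cases hy with
    | left _ _ a => exact ihL a
    | right _ _ b => exact ihR b

theorem nim_def (k : ℕ) :
    nim k = Game.mk (Fin k) (Fin k) (fun i => nim i.1) (fun i => nim i.1) := by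
  rw [nim]

/-- Left's good replies, moving second in the difference of a row of `P k` and `*k` -/
def Strategy (P : ℕ → (ℤ → ℕ) → Prop) : Prop :=
  (∀ k p, P k p → ∀ j < k, ∃ i, LegalLeft p i ∧ P j (sowLeft p i)) ∧
  (∀ k p, P k p → ∀ i, LegalRight p i → (∃ m < k, P m (sowRight p i)) ∨
    ∃ i', LegalLeft (sowRight p i) i' ∧ P k (sowLeft (sowRight p i) i'))

theorem le_of_strategy {P : ℕ → (ℤ → ℕ) → Prop} (h : Strategy P) :
    ∀ g k p, P k p → Form g p → Le (nim k) g := by
  intro g
  induction g using (opt_wf.transGen).induction with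
  | _ g ih =>
    intro k p hP hF
    cases g with
    | mk γ δ L' R' =>
      obtain ⟨⟨l1, l2⟩, ⟨r1, r2⟩⟩ := hF
      rw [nim_def, le_mk]
      refine ⟨fun i => ?_, fun j => ?_⟩
      · obtain ⟨i0, hl, hP'⟩ := h.1 k p hP i.1 i.2
        obtain ⟨a, ha⟩ := l1 i0 hl
        exact lf_of_le_left a (ih _ (Relation.TransGen.single (Opt.left L' R' a)) _ _ hP' ha)
      · obtain ⟨i, hl, hf⟩ := r2 j
        rcases h.2 k p hP i hl with ⟨m, hm, hP'⟩ | ⟨i', hl', hP'⟩
        · have h1 := ih _ (Relation.TransGen.single (Opt.right L' R' j)) _ _ hP' hf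
          exact lf_of_right_le (⟨m, hm⟩ : Fin k) h1
        · have ho := Opt.right L' R' j
          generalize R' j = x at hf ho
          cases x with
          | mk ε ζ L'' R'' =>
            obtain ⟨⟨m1, _⟩, _⟩ := hf
            obtain ⟨a, ha⟩ := m1 i' hl'
            have h1 := ih (L'' a)
              (Relation.TransGen.tail (Relation.TransGen.single (Opt.left L'' R'' a)) ho) _ _ hP' ha
            rw [nim_def] at h1
            exact lf_of_le_left a h1

/-- the mirror image of a row -/
def mir (p : ℤ → ℕ) : ℤ → ℕ := fun j => p (-j)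

theorem legalRight_mir (p : ℤ → ℕ) (i : ℤ) : LegalRight (mir p) (-i) ↔ LegalLeft p i := by
  unfold LegalRight LegalLeft mir
  rw [neg_neg, show -(-i - (p i : ℤ)) = i + p i by ring]

theorem legalLeft_mir (p : ℤ → ℕ) (i : ℤ) : LegalLeft (mir p) i ↔ LegalRight p (-i) := by
  unfold LegalRight LegalLeft mir
  rw [show -(i + (p (-i) : ℤ)) = -i - p (-i) by ring]

theorem sowRight_mir (p : ℤ → ℕ) (i : ℤ) : sowRight (mir p) (-i) = mir (sowLeft p i) := by
  funext j
  unfold sowRight sowLeft mir
  rw [neg_neg]
  have h1 : (j = -i) ↔ (-j = i) := by omega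
  have h2 : (-i - (p i : ℤ) ≤ j ∧ j < -i) ↔ (i < -j ∧ -j ≤ i + (p i : ℤ)) := by omega
  simp only [h1, h2]

theorem sowLeft_mir (p : ℤ → ℕ) (i : ℤ) : sowLeft (mir p) i = mir (sowRight p (-i)) := by
  funext j
  unfold sowRight sowLeft mir
  have h1 : (j = i) ↔ (-j = -i) := by omega
  have h2 : (-i - (p (-i) : ℤ) ≤ -j ∧ -j < -i) ↔ (i < j ∧ j ≤ i + (p (-i) : ℤ)) := by omega
  simp only [h1, h2]

theorem ge_of_strategy {P : ℕ → (ℤ → ℕ) → Prop} (h : Strategy P) :
    ∀ g k p, P k (mir p) → Form g p → Le g (nim k) := by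
  intro g
  induction g using (opt_wf.transGen).induction with
  | _ g ih =>
    intro k p hP hF
    cases g with
    | mk γ δ L' R' =>
      obtain ⟨⟨l1, l2⟩, ⟨r1, r2⟩⟩ := hF
      rw [nim_def, le_mk]
      refine ⟨fun j => ?_, fun i => ?_⟩
      · obtain ⟨i, hl, hf⟩ := l2 j
        have hl' := (legalRight_mir p i).2 hl
        rcases h.2 k (mir p) hP (-i) hl' with ⟨m, hm, hP'⟩ | ⟨i', hl'', hP'⟩
        · rw [sowRight_mir] at hP'
          have h1 := ih _ (Relation.TransGen.single (Opt.left L' R' j)) _ _ hP' hf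
          exact lf_of_le_left (⟨m, hm⟩ : Fin k) h1
        · rw [sowRight_mir] at hl'' hP'
          rw [sowLeft_mir] at hP'
          have hl3 := (legalLeft_mir _ _).1 hl''
          have ho := Opt.left L' R' j
          generalize L' j = x at hf ho
          cases x with
          | mk ε ζ L'' R'' =>
            obtain ⟨_, ⟨m1, _⟩⟩ := hf
            obtain ⟨a, ha⟩ := m1 _ hl3
            have h1 := ih (R'' a)
              (Relation.TransGen.tail (Relation.TransGen.single (Opt.right L'' R'' a)) ho) _ _ hP' ha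
            rw [nim_def] at h1
            exact lf_of_right_le a h1
      · obtain ⟨i0, hl, hP'⟩ := h.1 k (mir p) hP i.1 i.2
        rw [sowLeft_mir] at hP'
        obtain ⟨a, ha⟩ := r1 _ ((legalLeft_mir _ _).1 hl)
        exact lf_of_right_le a (ih _ (Relation.TransGen.single (Opt.right L' R' a)) _ _ hP' ha)

theorem value_of_strategy {P : ℕ → (ℤ → ℕ) → Prop} (h : Strategy P) {k : ℕ} {p : ℤ → ℕ}
    (hp : IsPosition p) (h1 : P k p) (h2 : mir p = p) : HasValue p (nim k) := by
  obtain ⟨g, hg⟩ := exists_form hp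
  exact ⟨g, hg, ge_of_strategy h g k p (by rw [h2]; exact h1) hg, le_of_strategy h g k p h1 hg⟩

end Pool.Agent.Helper52.SowNim
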