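import Pool.Agent.Helper52.Sow.Nest

/-!
# Sowing: the nested row has value `*n`
-/

set_option autoImplicit false

namespace Pool.Agent.Helper52.SowNim

open Pool.Agent.H395.Sowing

variable {n E : ℕ} {r : ℕ → ℕ}

/-- an exchange in a pair of a used level -/
theorem used_ex (hG : Geo n E r) {k s : ℕ} {B : Finset ℤ} {p : ℤ → ℕ}
    (hN : Nest n E r k s B p) {h : ℕ} (hh : h + k < n) {c : ℤ} (hc : IsPos (r h) c)
    (hx : 1 ≤ p c) (hy : 1 ≤ p (c + 1)) {a b : ℤ} {e : ℕ}
    (hab : (a = p c ∧ b = p (c + 1) ∧ e = 0) ∨ (a = (p (c + 1) : ℤ) - 1 ∧ b = p c ∧ e = 1)) :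
    (-(E : ℤ) ≤ c + 1 + b ∧ c + 1 + b ≤ E ∧ ¬ Spot n r (c + 1 + b)) ∧
      ∃ s' B', Nest n E r k s' B' (Ex p c a b e) := by
  have hs := hN.hs
  have hhn : h < n := by omega
  have hr := hG.big h hhn
  obtain ⟨-, u1, u2⟩ := hN.used h hh c hc
  have he : e ≤ 1 := by omega
  rcases u1 with ⟨b1, u1⟩ | ⟨b1, u1⟩
  · -- `c` is big
    have hc' : c = (r h : ℤ) ∧ c + 1 ∉ B := by
      rcases hN.big_cases hG hhn hc with h1 | ⟨_, h1⟩ | ⟨h1, _⟩
      · exact h1
      · exact absurd b1 h1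
      · exact absurd b1 h1
    have u2' : p (c + 1) ≤ s := by
      rcases u2 with ⟨b2, _⟩ | ⟨_, u2⟩
      · exact absurd b2 hc'.2
      · exact u2
    have hB : BigEx n (r h) c a b := by
      left
      refine ⟨hc'.1, ?_⟩
      omega
    obtain ⟨h1, h2⟩ := nest_big hG hN hh hc hB he b1 (Or.inl rfl)
    exact ⟨h1, _, _, h2⟩
  · rcases u2 with ⟨b2, u2⟩ | ⟨b2, u2⟩
    · have hc' : c = -(r h : ℤ) - 1 := by
        rcases hN.big_cases hG hhn hc with ⟨_, h1⟩ | ⟨h1, _⟩ | ⟨_, h1⟩
        · exact absurd b2 h1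
        · exact h1
        · exact absurd b2 h1
      have hB : BigEx n (r h) c a b := by
        right
        refine ⟨hc', ?_⟩
        omega
      obtain ⟨h1, h2⟩ := nest_big hG hN hh hc hB he b2 (Or.inr rfl)
      exact ⟨h1, _, _, h2⟩
    · obtain ⟨h1, h2⟩ := nest_small hG hN hh hc (a := a) (b := b) (e := e) (by omega) (by omega)
        (by omega) (by omega) he (by omega) b1 b2
      exact ⟨h1, _, _, h2⟩

/-! ### The big pot of an intact level -/

/-- the pot `z` is sown on `[lo, hi]` -/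
def Sw (p : ℤ → ℕ) (z lo hi : ℤ) : ℤ → ℕ := fun j =>
  if j = z then 0 else if lo ≤ j ∧ j ≤ hi then p j + 1 else p j

theorem sw_in (p : ℤ → ℕ) {z lo hi j : ℤ} (h1 : j ≠ z) (h2 : lo ≤ j) (h3 : j ≤ hi) :
    Sw p z lo hi j = p j + 1 := by
  unfold Sw
  rw [if_neg h1, if_pos ⟨h2, h3⟩]

theorem sw_out (p : ℤ → ℕ) {z lo hi j : ℤ} (h1 : j ≠ z) (h2 : j < lo ∨ hi < j) :
    Sw p z lo hi j = p j := by
  unfold Sw
  rw [if_neg h1, if_neg (by omega)]

theorem sw_self (p : ℤ → ℕ) (z lo hi : ℤ) : Sw p z lo hi z = 0 := by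
  unfold Sw
  rw [if_pos rfl]

theorem sw_ge (p : ℤ → ℕ) {z lo hi j : ℤ} (h1 : j ≠ z) : p j ≤ Sw p z lo hi j := by
  unfold Sw
  rw [if_neg h1]
  split_ifs <;> omega

theorem notB (hG : Geo n E r) {k s : ℕ} {B : Finset ℤ} {p : ℤ → ℕ} (hN : Nest n E r k s B p)
    {h : ℕ} (hh : h < n) {c j : ℤ} (hc : IsPos (r h) c) (hj : j = c ∨ j = c + 1)
    (h1 : j ≠ r h) (h2 : j ≠ -(r h : ℤ)) : j ∉ B := by
  have hr := hG.big h hh
  rcases hN.big_cases hG hh hc with ⟨e1, e2⟩ | ⟨e1, e2⟩ | ⟨e1, e2⟩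
  · rcases hj with rfl | rfl
    · omega
    · exact e2
  · rcases hj with rfl | rfl
    · exact e2
    · omega
  · rcases hj with rfl | rfl
    · exact e1
    · exact e2

theorem nest_intact (hG : Geo n E r) {k s : ℕ} {B : Finset ℤ} {p : ℤ → ℕ}
    (hN : Nest n E r k s B p) {h : ℕ} (hh : h < n) (hk : n ≤ h + k) {z lo hi : ℤ}
    (hz : (z = (r h : ℤ) ∧ lo = -(r h : ℤ) - 2 ∧ hi = (r h : ℤ) - 1) ∨
      (z = -(r h : ℤ) ∧ lo = -(r h : ℤ) + 1 ∧ hi = (r h : ℤ) + 2)) :
    Nest n E r (n - 1 - h) (s + 1) (B.erase z) (Sw p z lo hi) := by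
  have hr := hG.big h hh
  have hE := hG.le h hh
  obtain ⟨⟨i1, i2⟩, ⟨i3, i4⟩, ⟨i5, i6⟩, ⟨i7, i8⟩, i9, i10⟩ := hN.intact h hh hk
  have hzB : z ∈ B := by
    rcases hz with ⟨rfl, _⟩ | ⟨rfl, _⟩ <;> assumption
  have hzS : Spot n r z := by
    rcases hz with ⟨rfl, _⟩ | ⟨rfl, _⟩
    · exact ⟨h, hh, _, Or.inl rfl, Or.inl rfl⟩
    · exact ⟨h, hh, _, Or.inr (Or.inr (Or.inl rfl)), Or.inr (by ring)⟩
  refine ⟨?_, ?_, by omega, ?_, ?_, ?_, ?_⟩
  · intro j h1 h2 h3
    have n1 : j ≠ z := fun e => h3 (e ▸ hzS)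
    exact le_trans (hN.wall j h1 h2 h3) (sw_ge p n1)
  · intro j hj
    rw [sw_out p (by omega) (by omega)]
    exact hN.out j hj
  · rw [Finset.card_erase_of_mem hzB]
    have := hN.bud
    have := Finset.card_pos.2 ⟨z, hzB⟩
    omega
  · intro j hj
    exact hN.hB j (Finset.mem_of_mem_erase hj)
  · intro h' hh' hk'
    have ht := hG.lt h h' (by omega) hh'
    obtain ⟨⟨j1, j2⟩, ⟨j3, j4⟩, ⟨j5, j6⟩, ⟨j7, j8⟩, j9, j10⟩ := hN.intact h' hh' (by omega)
    refine ⟨⟨?_, ?_⟩, ⟨?_, ?_⟩, ⟨?_, ?_⟩, ⟨?_, ?_⟩, Finset.mem_erase.2 ⟨by omega, j9⟩,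
      Finset.mem_erase.2 ⟨by omega, j10⟩⟩
    all_goals rw [sw_out p (by omega) (by omega)]; assumption
  · intro h' hk' c hc
    have hh' : h' < n := by omega
    have hr' := hG.big h' hh'
    rcases hG.two hh hh' with ⟨_, ht⟩ | rfl | ⟨_, ht⟩
    · -- a lower level: everything is swept
      have e1 : Sw p z lo hi c = p c + 1 := by
        refine sw_in p ?_ ?_ ?_ <;> rcases hc with rfl | rfl | rfl | rfl <;> omega
      have e2 : Sw p z lo hi (c + 1) = p (c + 1) + 1 := by
        refine sw_in p ?_ ?_ ?_ <;> rcases hc with rfl | rfl | rfl | rfl <;> omega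
      rw [e1, e2]
      have m1 : ∀ j, (j = c ∨ j = c + 1) → j ≠ z := by
        intro j hj
        rcases hc with rfl | rfl | rfl | rfl <;> omega
      have m2 : ∀ j, (j = c ∨ j = c + 1) → j ∈ B → j ∈ B.erase z := fun j hj hjB =>
        Finset.mem_erase.2 ⟨m1 j hj, hjB⟩
      have m3 : ∀ j, j ∉ B → j ∉ B.erase z := fun j hj hx => hj (Finset.mem_of_mem_erase hx)
      by_cases hk2 : n ≤ h' + k
      · obtain ⟨⟨j1, j2⟩, ⟨j3, j4⟩, ⟨j5, j6⟩, ⟨j7, j8⟩, j9, j10⟩ := hN.intact h' hh' hk2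
        refine ⟨Or.inr ⟨by omega, by omega⟩, ?_, ?_⟩
        · by_cases hcB : c = (r h' : ℤ)
          · refine Or.inl ⟨m2 c (Or.inl rfl) (hcB ▸ j9), ?_⟩
            rw [hcB, j1]
            omega
          · refine Or.inr ⟨m3 _ (notB hG hN hh' hc (Or.inl rfl) hcB ?_), ?_⟩
            · rcases hc with rfl | rfl | rfl | rfl <;> omega
            · have : p c = 0 := by
                rcases hc with rfl | rfl | rfl | rfl
                · omega
                · exact j3
                · exact j6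
                · exact j8
              omega
        · by_cases hcB : c + 1 = -(r h' : ℤ)
          · refine Or.inl ⟨m2 _ (Or.inr rfl) (hcB ▸ j10), ?_⟩
            rw [hcB, j5]
            omega
          · refine Or.inr ⟨m3 _ (notB hG hN hh' hc (Or.inr rfl) ?_ hcB), ?_⟩
            · rcases hc with rfl | rfl | rfl | rfl <;> omega
            · have : p (c + 1) = 0 := by
                rcases hc with rfl | rfl | rfl | rfl
                · exact j2
                · rw [show 3 * (r h' : ℤ) + 1 + 1 = 3 * (r h' : ℤ) + 2 by ring]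
                  exact j4
                · omega
                · rw [show -(3 * (r h' : ℤ)) - 2 + 1 = -(3 * (r h' : ℤ)) - 1 by ring]
                  exact j7
              omega
      · obtain ⟨u1, u2, u3⟩ := hN.used h' (by omega) c hc
        refine ⟨u1.add le_rfl, ?_, ?_⟩
        · rcases u2 with ⟨v1, v2, v3⟩ | ⟨v1, v2⟩
          · exact Or.inl ⟨m2 _ (Or.inl rfl) v1, by omega, by omega⟩
          · exact Or.inr ⟨m3 _ v1, by omega⟩
        · rcases u3 with ⟨v1, v2, v3⟩ | ⟨v1, v2⟩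
          · exact Or.inl ⟨m2 _ (Or.inr rfl) v1, by omega, by omega⟩
          · exact Or.inr ⟨m3 _ v1, by omega⟩
    · -- the same level
      have m3 : ∀ j, (j = c ∨ j = c + 1) → j ≠ (r h' : ℤ) → j ≠ -(r h' : ℤ) → j ∉ B.erase z :=
        fun j hj h1 h2 hx => notB hG hN hh' hc hj h1 h2 (Finset.mem_of_mem_erase hx)
      rcases hz with ⟨rfl, rfl, rfl⟩ | ⟨rfl, rfl, rfl⟩
      · rcases hc with rfl | rfl | rfl | rfl
        · rw [sw_self, sw_out p (by omega) (by omega), i2]
          exact ⟨Or.inl ⟨rfl, by omega⟩, Or.inr ⟨by simp, by omega⟩,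
            Or.inr ⟨m3 _ (Or.inr rfl) (by omega) (by omega), by omega⟩⟩
        · rw [sw_out p (by omega) (by omega), sw_out p (by omega) (by omega), i3,
            show 3 * (r h' : ℤ) + 1 + 1 = 3 * (r h' : ℤ) + 2 by ring, i4]
          exact ⟨Or.inl ⟨rfl, by omega⟩, Or.inr ⟨m3 _ (Or.inl rfl) (by omega) (by omega), by omega⟩,
            Or.inr ⟨m3 _ (Or.inr (by ring)) (by omega) (by omega), by omega⟩⟩
        · rw [sw_in p (by omega) (by omega) (by omega), sw_in p (by omega) (by omega) (by omega), i6,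
            show -(r h' : ℤ) - 1 + 1 = -(r h' : ℤ) by ring, i5]
          exact ⟨Or.inr ⟨by omega, by omega⟩,
            Or.inr ⟨m3 _ (Or.inl rfl) (by omega) (by omega), by omega⟩,
            Or.inl ⟨Finset.mem_erase.2 ⟨by omega, i10⟩, by omega, by omega⟩⟩
        · rw [sw_out p (by omega) (by omega), sw_out p (by omega) (by omega), i8,
            show -(3 * (r h' : ℤ)) - 2 + 1 = -(3 * (r h' : ℤ)) - 1 by ring, i7]
          exact ⟨Or.inl ⟨rfl, by omega⟩, Or.inr ⟨m3 _ (Or.inl rfl) (by omega) (by omega), by omega⟩,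
            Or.inr ⟨m3 _ (Or.inr (by ring)) (by omega) (by omega), by omega⟩⟩
      · rcases hc with rfl | rfl | rfl | rfl
        · rw [sw_in p (by omega) (by omega) (by omega), sw_in p (by omega) (by omega) (by omega), i1,
            i2]
          exact ⟨Or.inr ⟨by omega, by omega⟩,
            Or.inl ⟨Finset.mem_erase.2 ⟨by omega, i9⟩, by omega, by omega⟩,
            Or.inr ⟨m3 _ (Or.inr rfl) (by omega) (by omega), by omega⟩⟩
        · rw [sw_out p (by omega) (by omega), sw_out p (by omega) (by omega), i3,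
            show 3 * (r h' : ℤ) + 1 + 1 = 3 * (r h' : ℤ) + 2 by ring, i4]
          exact ⟨Or.inl ⟨rfl, by omega⟩, Or.inr ⟨m3 _ (Or.inl rfl) (by omega) (by omega), by omega⟩,
            Or.inr ⟨m3 _ (Or.inr (by ring)) (by omega) (by omega), by omega⟩⟩
        · rw [sw_out p (by omega) (by omega), i6,
            show -(r h' : ℤ) - 1 + 1 = -(r h' : ℤ) by ring, sw_self]
          exact ⟨Or.inl ⟨rfl, by omega⟩,
            Or.inr ⟨m3 _ (Or.inl rfl) (by omega) (by omega), by omega⟩,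
            Or.inr ⟨by simp, by omega⟩⟩
        · rw [sw_out p (by omega) (by omega), sw_out p (by omega) (by omega), i8,
            show -(3 * (r h' : ℤ)) - 2 + 1 = -(3 * (r h' : ℤ)) - 1 by ring, i7]
          exact ⟨Or.inl ⟨rfl, by omega⟩, Or.inr ⟨m3 _ (Or.inl rfl) (by omega) (by omega), by omega⟩,
            Or.inr ⟨m3 _ (Or.inr (by ring)) (by omega) (by omega), by omega⟩⟩
    · omega

theorem sowRight_intact {p : ℤ → ℕ} {R : ℕ} (hp : p R = 2 * R + 2) :
    sowRight p R = Sw p R (-(R : ℤ) - 2) ((R : ℤ) - 1) := by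
  funext j
  unfold sowRight Sw
  rw [hp]
  push_cast
  split_ifs <;> first | rfl | omega

theorem sowLeft_intact {p : ℤ → ℕ} {R : ℕ} (hp : p (-(R : ℤ)) = 2 * R + 2) :
    sowLeft p (-(R : ℤ)) = Sw p (-(R : ℤ)) (-(R : ℤ) + 1) ((R : ℤ) + 2) := by
  funext j
  unfold sowLeft Sw
  rw [hp]
  push_cast
  split_ifs <;> first | rfl | omega

/-- the rows with `k` intact levels -/
def P (n E : ℕ) (r : ℕ → ℕ) (k : ℕ) (p : ℤ → ℕ) : Prop := ∃ s B, Nest n E r k s B p

theorem strategy (hG : Geo n E r) : Strategy (P n E r) := by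
  constructor
  · rintro k p ⟨s, B, hN⟩ j hj
    have hkn := hN.kn
    have hh : n - 1 - j < n := by omega
    have hk : n ≤ n - 1 - j + k := by omega
    have hr := hG.big _ hh
    have hE := hG.le _ hh
    have i5 := (hN.intact _ hh hk).2.2.1.1
    refine ⟨-(r (n - 1 - j) : ℤ), ⟨by rw [i5]; omega, ?_⟩, s + 1, B.erase (-(r (n - 1 - j) : ℤ)), ?_⟩
    · rw [i5]
      have hw := hN.wall (-(r (n - 1 - j) : ℤ) + ((2 * r (n - 1 - j) + 2 : ℕ) : ℤ)) (by omega)
        (by omega) ?_
      · omega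
      · rintro ⟨h', hh', d, hd, hj'⟩
        have hr' := hG.big h' hh'
        rcases hG.two hh hh' with ⟨_, ht⟩ | hl | ⟨_, ht⟩
        · rcases hd with rfl | rfl | rfl | rfl <;> omega
        · rw [hl] at hd
          rcases hd with rfl | rfl | rfl | rfl <;> omega
        · rcases hd with rfl | rfl | rfl | rfl <;> omega
    · have h1 := nest_intact hG hN hh hk (Or.inr ⟨rfl, rfl, rfl⟩)
      rw [← sowLeft_intact i5] at h1
      rwa [show n - 1 - (n - 1 - j) = j by omega] at h1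
  · rintro k p ⟨s, B, hN⟩ i ⟨h0, h1⟩
    have hiE : -(E : ℤ) ≤ i ∧ i ≤ E := by
      by_contra hx
      exact h0 (hN.out i (by omega))
    have hS : Spot n r i := by
      by_contra hx
      have := hN.wall i hiE.1 hiE.2 hx
      exact h1 (hN.out _ (by omega))
    obtain ⟨h, hh, c, hc, hi⟩ := hS
    have hr := hG.big h hh
    by_cases hk : n ≤ h + k
    · obtain ⟨⟨i1, i2⟩, ⟨i3, i4⟩, ⟨i5, i6⟩, ⟨i7, i8⟩, i9, i10⟩ := hN.intact h hh hk
      left
      rcases hi with rfl | rfl
      · rcases hc with rfl | rfl | rfl | rfl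
        · refine ⟨n - 1 - h, by omega, s + 1, B.erase (r h : ℤ), ?_⟩
          have h2 := nest_intact hG hN hh hk (Or.inl ⟨rfl, rfl, rfl⟩)
          rwa [← sowRight_intact i1] at h2
        · exact absurd i3 h0
        · exact absurd i6 h0
        · exact absurd i8 h0
      · rcases hc with rfl | rfl | rfl | rfl
        · exact absurd i2 h0
        · rw [show 3 * (r h : ℤ) + 1 + 1 = 3 * (r h : ℤ) + 2 by ring] at h0
          exact absurd i4 h0
        · rw [show -(r h : ℤ) - 1 + 1 = -(r h : ℤ) by ring, i5,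
            show -(r h : ℤ) - ((2 * r h + 2 : ℕ) : ℤ) = -(3 * (r h : ℤ)) - 2 by push_cast; ring] at h1
          exact absurd i8 h1
        · rw [show -(3 * (r h : ℤ)) - 2 + 1 = -(3 * (r h : ℤ)) - 1 by ring] at h0
          exact absurd i7 h0
    · right
      obtain ⟨pp, -, -⟩ := hN.used h (by omega) c hc
      have hxy : 1 ≤ p c ∧ 1 ≤ p (c + 1) := by
        rcases pp with ⟨p1, p2⟩ | h2
        · exfalso
          rcases hi with rfl | rfl
          · exact h0 p1
          · have e : p (c + 1) = 1 := by omega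
            rw [e, show c + 1 - ((1 : ℕ) : ℤ) = c by push_cast; ring] at h1
            exact h1 p1
        · exact h2
      rcases hi with rfl | rfl
      · obtain ⟨⟨b1, b2, b3⟩, s', B', h3⟩ := used_ex hG hN (by omega) hc hxy.1 hxy.2
          (Or.inl ⟨rfl, rfl, rfl⟩)
        have e1 : sowRight p i (i + 1) = p (i + 1) := by
          unfold sowRight
          rw [if_neg (by omega), if_neg (by omega)]
        refine ⟨i + 1, ⟨?_, ?_⟩, s', B', ?_⟩
        · rw [e1]
          omega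
        · rw [e1]
          have hw := hN.wall _ b1 b2 b3
          have e2 : sowRight p i (i + 1 + (p (i + 1) : ℤ)) = p (i + 1 + (p (i + 1) : ℤ)) := by
            unfold sowRight
            rw [if_neg (by omega), if_neg (by omega)]
          rw [e2]
          omega
        · rw [ex1]
          exact h3
      · obtain ⟨⟨b1, b2, b3⟩, s', B', h3⟩ := used_ex hG hN (by omega) hc hxy.1 hxy.2
          (Or.inr ⟨rfl, rfl, rfl⟩)
        have e1 : sowRight p (c + 1) c = p c + 1 := by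
          unfold sowRight
          rw [if_neg (by omega), if_pos (by omega)]
        refine ⟨c, ⟨?_, ?_⟩, s', B', ?_⟩
        · rw [e1]
          omega
        · rw [e1]
          have hw := hN.wall _ b1 b2 b3
          have e2 : sowRight p (c + 1) (c + ((p c + 1 : ℕ) : ℤ)) = p (c + 1 + (p c : ℤ)) := by
            rw [show c + ((p c + 1 : ℕ) : ℤ) = c + 1 + (p c : ℤ) by push_cast; ring]
            unfold sowRight
            rw [if_neg (by omega), if_neg (by omega)]
          rw [e2]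
          omega
        · rw [ex2 p c hxy.2]
          exact h3

end Pool.Agent.Helper52.SowNim
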