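import Pool.Agent.Helper52.Sow.Basic

/-!
# Sowing: nested pairs of big pots

Invariants and their preservation.
-/

set_option autoImplicit false

namespace Pool.Agent.Helper52.SowNim

open Pool.Agent.H395.Sowing

/-- `r h`, `h < n`, are the places of the big pots, and the row is on `[-E, E]` -/
structure Geo (n E : ℕ) (r : ℕ → ℕ) : Prop where
  big : ∀ h, h < n → 100 * (n + 1) ≤ r h
  lt : ∀ a b, a < b → b < n → 4 * r a ≤ r b
  le : ∀ h, h < n → 4 * r h ≤ E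

/-- the left pots of the four pairs of the level `R` -/
def IsPos (R : ℕ) (c : ℤ) : Prop :=
  c = (R : ℤ) ∨ c = 3 * (R : ℤ) + 1 ∨ c = -(R : ℤ) - 1 ∨ c = -(3 * (R : ℤ)) - 2

/-- the pots which are not walls -/
def Spot (n : ℕ) (r : ℕ → ℕ) (j : ℤ) : Prop := ∃ h < n, ∃ c, IsPos (r h) c ∧ (j = c ∨ j = c + 1)

/-- good states of a pair -/
def PP (x y : ℕ) : Prop := (x = 0 ∧ y ≤ 1) ∨ (1 ≤ x ∧ 1 ≤ y)

/-- the number `v` of seeds in the pot `j`, which is big if `j ∈ B` -/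
def Cnt (s : ℕ) (B : Finset ℤ) (X : ℕ) (v : ℕ) (j : ℤ) : Prop :=
  (j ∈ B ∧ X + 1 ≤ v ∧ v ≤ X + s) ∨ (j ∉ B ∧ v ≤ s)

/-- the levels `h` with `n ≤ h + k` are intact, the other ones are used -/
structure Nest (n E : ℕ) (r : ℕ → ℕ) (k s : ℕ) (B : Finset ℤ) (p : ℤ → ℕ) : Prop where
  wall : ∀ j : ℤ, -(E : ℤ) ≤ j → j ≤ E → ¬ Spot n r j → 2 * E + 1 ≤ p j
  out : ∀ j : ℤ, (j < -(E : ℤ) ∨ (E : ℤ) < j) → p j = 0
  kn : k ≤ n
  bud : s + B.card ≤ 2 * n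
  hB : ∀ j ∈ B, ∃ h < n, j = (r h : ℤ) ∨ j = -(r h : ℤ)
  intact : ∀ h < n, n ≤ h + k →
    (p (r h) = 2 * r h + 2 ∧ p ((r h : ℤ) + 1) = 0) ∧
    (p (3 * (r h : ℤ) + 1) = 0 ∧ p (3 * (r h : ℤ) + 2) = 0) ∧
    (p (-(r h : ℤ)) = 2 * r h + 2 ∧ p (-(r h : ℤ) - 1) = 0) ∧
    (p (-(3 * (r h : ℤ)) - 1) = 0 ∧ p (-(3 * (r h : ℤ)) - 2) = 0) ∧
    (r h : ℤ) ∈ B ∧ -(r h : ℤ) ∈ B
  used : ∀ h, h + k < n → ∀ c, IsPos (r h) c →
    PP (p c) (p (c + 1)) ∧ Cnt s B (2 * r h + 2) (p c) c ∧ Cnt s B (2 * r h + 2) (p (c + 1)) (c + 1)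

variable {n E : ℕ} {r : ℕ → ℕ}

/-! ### One exchange in a pair -/

/-- the result of an exchange in the pair `c, c + 1` -/
def Ex (p : ℤ → ℕ) (c a b : ℤ) (e : ℕ) : ℤ → ℕ := fun j =>
  if j = c then 0 else if j = c + 1 then e
  else if (c - a ≤ j ∧ j < c) ∨ (c + 1 < j ∧ j ≤ c + 1 + b) then p j + 1 else p j

theorem ex1 (p : ℤ → ℕ) (c : ℤ) :
    sowLeft (sowRight p c) (c + 1) = Ex p c (p c) (p (c + 1)) 0 := by
  have h1 : sowRight p c (c + 1) = p (c + 1) := by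
    unfold sowRight
    rw [if_neg (by omega), if_neg (by omega)]
  funext j
  unfold sowLeft
  rw [h1]
  unfold Ex sowRight
  by_cases e1 : j = c
  · subst e1
    simp
  · by_cases e2 : j = c + 1
    · subst e2
      simp
    · simp only [e1, e2, if_false]
      split_ifs <;> first | rfl | omega

theorem ex2 (p : ℤ → ℕ) (c : ℤ) (hy : 1 ≤ p (c + 1)) :
    sowLeft (sowRight p (c + 1)) c = Ex p c ((p (c + 1) : ℤ) - 1) (p c) 1 := by
  have h1 : sowRight p (c + 1) c = p c + 1 := by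
    unfold sowRight
    rw [if_neg (by omega), if_pos (by omega)]
  funext j
  unfold sowLeft
  rw [h1]
  unfold Ex sowRight
  by_cases e1 : j = c
  · subst e1
    simp
  · by_cases e2 : j = c + 1
    · subst e2
      simp
    · simp only [e1, e2, if_false]
      push_cast
      split_ifs <;> first | rfl | omega

theorem ex_ge (p : ℤ → ℕ) (c a b : ℤ) (e : ℕ) {j : ℤ} (h1 : j ≠ c) (h2 : j ≠ c + 1) :
    p j ≤ Ex p c a b e j := by
  unfold Ex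
  rw [if_neg h1, if_neg h2]
  split_ifs <;> omega

theorem ex_far (p : ℤ → ℕ) (c a b : ℤ) (e : ℕ) {j : ℤ} (ha : 0 ≤ a) (hb : 0 ≤ b)
    (h : j < c - a ∨ c + 1 + b < j) : Ex p c a b e j = p j := by
  unfold Ex
  rw [if_neg (by omega), if_neg (by omega), if_neg (by omega)]

theorem ex_at (p : ℤ → ℕ) (c a b : ℤ) (e : ℕ) {j : ℤ} (h1 : j ≠ c) (h2 : j ≠ c + 1) :
    Ex p c a b e j =
      if (c - a ≤ j ∧ j < c) ∨ (c + 1 < j ∧ j ≤ c + 1 + b) then p j + 1 else p j := by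
  unfold Ex
  rw [if_neg h1, if_neg h2]

theorem ex_pair (p : ℤ → ℕ) (c a b : ℤ) (e : ℕ) {d : ℤ} (h1 : d + 1 < c ∨ c + 1 < d)
    (h2 : d + 1 ≠ c - a) (h3 : d ≠ c + 1 + b) :
    (Ex p c a b e d = p d ∧ Ex p c a b e (d + 1) = p (d + 1)) ∨
      (Ex p c a b e d = p d + 1 ∧ Ex p c a b e (d + 1) = p (d + 1) + 1) := by
  rw [ex_at p c a b e (by omega) (by omega), ex_at p c a b e (by omega) (by omega)]
  by_cases h : (c - a ≤ d ∧ d < c) ∨ (c + 1 < d ∧ d ≤ c + 1 + b)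
  · rw [if_pos h, if_pos (by omega)]
    exact Or.inr ⟨rfl, rfl⟩
  · rw [if_neg h, if_neg (by omega)]
    exact Or.inl ⟨rfl, rfl⟩

theorem PP.add {x y δ : ℕ} (h : PP x y) (hδ : δ ≤ 1) : PP (x + δ) (y + δ) := by
  unfold PP at *
  omega

/-- the general case of an exchange -/
theorem nest_gen {k s : ℕ} {B : Finset ℤ} {p : ℤ → ℕ} (hN : Nest n E r k s B p)
    {h : ℕ} (hh : h + k < n) {c : ℤ} (hc : IsPos (r h) c) {a b : ℤ} {e : ℕ} {s' : ℕ}
    {B' : Finset ℤ} (ha : 0 ≤ a) (hb : 0 ≤ b) (he : e ≤ 1) (hes : e ≤ s')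
    (hsub : B' ⊆ B) (hc1 : c ∉ B') (hc2 : c + 1 ∉ B')
    (hkeep : ∀ j ∈ B, j ≠ c → j ≠ c + 1 → j ∈ B')
    (hbud : s' + B'.card ≤ 2 * n) (hE1 : -(E : ℤ) ≤ c - a) (hE2 : c + 1 + b ≤ E)
    (H1 : ∀ h' < n, n ≤ h' + k → c + 1 + b < (r h' : ℤ) ∧ -(r h' : ℤ) < c - a)
    (H2 : ∀ h', h' + k < n → ∀ d, IsPos (r h') d → d ≠ c → (d + 1 < c ∨ c + 1 < d) ∧
      ∃ δ, δ ≤ 1 ∧ s + δ ≤ s' ∧ Ex p c a b e d = p d + δ ∧ Ex p c a b e (d + 1) = p (d + 1) + δ) :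
    Nest n E r k s' B' (Ex p c a b e) := by
  have hcE : -(E : ℤ) ≤ c ∧ c + 1 ≤ E := by omega
  have hS1 : Spot n r c := ⟨h, by omega, c, hc, Or.inl rfl⟩
  have hS2 : Spot n r (c + 1) := ⟨h, by omega, c, hc, Or.inr rfl⟩
  refine ⟨?_, ?_, hN.kn, hbud, fun j hj => hN.hB j (hsub hj), ?_, ?_⟩
  · intro j h1 h2 h3
    have n1 : j ≠ c := fun e => h3 (e ▸ hS1)
    have n2 : j ≠ c + 1 := fun e => h3 (e ▸ hS2)
    exact le_trans (hN.wall j h1 h2 h3) (ex_ge p c a b e n1 n2)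
  · intro j hj
    rw [ex_far p c a b e ha hb (by omega)]
    exact hN.out j hj
  · intro h' hh' hk
    obtain ⟨⟨i1, i2⟩, ⟨i3, i4⟩, ⟨i5, i6⟩, ⟨i7, i8⟩, i9, i10⟩ := hN.intact h' hh' hk
    obtain ⟨g1, g2⟩ := H1 h' hh' hk
    refine ⟨⟨?_, ?_⟩, ⟨?_, ?_⟩, ⟨?_, ?_⟩, ⟨?_, ?_⟩, hkeep _ i9 (by omega) (by omega),
      hkeep _ i10 (by omega) (by omega)⟩
    all_goals rw [ex_far p c a b e ha hb (by omega)]; assumption
  · intro h' hk d hd
    by_cases hdc : d = c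
    · subst hdc
      have e1 : Ex p d a b e d = 0 := by
        unfold Ex
        rw [if_pos rfl]
      have e2 : Ex p d a b e (d + 1) = e := by
        unfold Ex
        rw [if_neg (by omega), if_pos rfl]
      rw [e1, e2]
      exact ⟨Or.inl ⟨rfl, he⟩, Or.inr ⟨hc1, Nat.zero_le _⟩, Or.inr ⟨hc2, hes⟩⟩
    · obtain ⟨hdis, δ, h1, h2, h3, h4⟩ := H2 h' hk d hd hdc
      obtain ⟨u1, u2, u3⟩ := hN.used h' hk d hd
      rw [h3, h4]
      refine ⟨u1.add h1, ?_, ?_⟩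
      · rcases u2 with ⟨v1, v2, v3⟩ | ⟨v1, v2⟩
        · exact Or.inl ⟨hkeep _ v1 (by omega) (by omega), by omega, by omega⟩
        · exact Or.inr ⟨fun hx => v1 (hsub hx), by omega⟩
      · rcases u3 with ⟨v1, v2, v3⟩ | ⟨v1, v2⟩
        · exact Or.inl ⟨hkeep _ v1 (by omega) (by omega), by omega, by omega⟩
        · exact Or.inr ⟨fun hx => v1 (hsub hx), by omega⟩

/-- facts on two levels -/
theorem Geo.two (hG : Geo n E r) {h h' : ℕ} (hh : h < n) (hh' : h' < n) :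
    (h' < h ∧ 4 * r h' ≤ r h) ∨ h' = h ∨ (h < h' ∧ 4 * r h ≤ r h') := by
  rcases lt_trichotomy h' h with hl | hl | hl
  · exact Or.inl ⟨hl, hG.lt h' h hl hh⟩
  · exact Or.inr (Or.inl hl)
  · exact Or.inr (Or.inr ⟨hl, hG.lt h h' hl hh'⟩)


theorem Nest.hs {k s : ℕ} {B : Finset ℤ} {p : ℤ → ℕ} (hN : Nest n E r k s B p) : s ≤ 2 * n := by
  have := hN.bud
  omega

/-- only the places `r h`, `- r h` are in `B` -/
theorem Nest.big_cases (hG : Geo n E r) {k s : ℕ} {B : Finset ℤ} {p : ℤ → ℕ}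
    (hN : Nest n E r k s B p) {h : ℕ} (hh : h < n) {c : ℤ} (hc : IsPos (r h) c) :
    (c = (r h : ℤ) ∧ c + 1 ∉ B) ∨ (c = -(r h : ℤ) - 1 ∧ c ∉ B) ∨ (c ∉ B ∧ c + 1 ∉ B) := by
  have hb := hG.big h hh
  have key : ∀ j ∈ B, (j = c ∨ j = c + 1) → j = (r h : ℤ) ∨ j = -(r h : ℤ) := by
    intro j hj hjc
    obtain ⟨h', hh', hj'⟩ := hN.hB j hj
    have hb' := hG.big h' hh'
    rcases hG.two hh hh' with ⟨_, ht⟩ | rfl | ⟨_, ht⟩
    · rcases hc with rfl | rfl | rfl | rfl <;> omega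
    · exact hj'
    · rcases hc with rfl | rfl | rfl | rfl <;> omega
  rcases hc with hc | hc | hc | hc
  · refine Or.inl ⟨hc, fun hx => ?_⟩
    have := key _ hx (Or.inr rfl)
    omega
  · refine Or.inr (Or.inr ⟨fun hx => ?_, fun hx => ?_⟩)
    · have := key _ hx (Or.inl rfl)
      omega
    · have := key _ hx (Or.inr rfl)
      omega
  · refine Or.inr (Or.inl ⟨hc, fun hx => ?_⟩)
    have := key _ hx (Or.inl rfl)
    omega
  · refine Or.inr (Or.inr ⟨fun hx => ?_, fun hx => ?_⟩)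
    · have := key _ hx (Or.inl rfl)
      omega
    · have := key _ hx (Or.inr rfl)
      omega

/-- a small exchange -/
theorem nest_small (hG : Geo n E r) {k s : ℕ} {B : Finset ℤ} {p : ℤ → ℕ}
    (hN : Nest n E r k s B p)
    {h : ℕ} (hh : h + k < n) {c : ℤ} (hc : IsPos (r h) c) {a b : ℤ} {e : ℕ}
    (ha : 0 ≤ a) (ha2 : a ≤ 2 * n) (hb : 1 ≤ b) (hb2 : b ≤ 2 * n) (he : e ≤ 1) (hes : e ≤ s)
    (hc1 : c ∉ B) (hc2 : c + 1 ∉ B) :
    (-(E : ℤ) ≤ c + 1 + b ∧ c + 1 + b ≤ E ∧ ¬ Spot n r (c + 1 + b)) ∧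
      Nest n E r k s B (Ex p c a b e) := by
  have hhn : h < n := by omega
  have hr := hG.big h hhn
  have hE := hG.le h hhn
  have bd : -(E : ℤ) ≤ c - a ∧ c + 1 + b ≤ E := by
    rcases hc with rfl | rfl | rfl | rfl <;> omega
  refine ⟨⟨by omega, bd.2, ?_⟩, ?_⟩
  · rintro ⟨h', hh', d, hd, hj⟩
    have hr' := hG.big h' hh'
    rcases hG.two hhn hh' with ⟨_, ht⟩ | rfl | ⟨_, ht⟩ <;>
    rcases hc with rfl | rfl | rfl | rfl <;>
    rcases hd with rfl | rfl | rfl | rfl <;> omega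
  · refine nest_gen hN hh hc ha (by omega) he hes (Finset.Subset.refl _) hc1 hc2
      (fun j hj _ _ => hj) hN.bud bd.1 bd.2 ?_ ?_
    · intro h' hh' hk
      have ht := hG.lt h h' (by omega) hh'
      rcases hc with rfl | rfl | rfl | rfl <;> omega
    · intro h' hk d hd hdc
      have hh' : h' < n := by omega
      have hr' := hG.big h' hh'
      have hfar : d + 1 < c - a ∨ c + 1 + b < d := by
        rcases hG.two hhn hh' with ⟨_, ht⟩ | rfl | ⟨_, ht⟩ <;>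
        rcases hc with rfl | rfl | rfl | rfl <;>
        rcases hd with rfl | rfl | rfl | rfl <;> omega
      refine ⟨by omega, 0, by omega, by omega, ?_, ?_⟩
      · exact ex_far p c a b e ha (by omega) (by omega)
      · exact ex_far p c a b e ha (by omega) (by omega)

/-- the numbers of seeds in an exchange with a big pot -/
def BigEx (n R : ℕ) (c a b : ℤ) : Prop :=
  (c = (R : ℤ) ∧ ((2 * (R : ℤ) + 3 ≤ a ∧ a ≤ 2 * R + 2 + 2 * n ∧ 1 ≤ b ∧ b ≤ 2 * n) ∨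
    (0 ≤ a ∧ a ≤ 2 * n ∧ 2 * (R : ℤ) + 3 ≤ b ∧ b ≤ 2 * R + 2 + 2 * n))) ∨
  (c = -(R : ℤ) - 1 ∧ ((0 ≤ a ∧ a ≤ 2 * n ∧ 2 * (R : ℤ) + 3 ≤ b ∧ b ≤ 2 * R + 2 + 2 * n) ∨
    (2 * (R : ℤ) + 2 ≤ a ∧ a ≤ 2 * R + 1 + 2 * n ∧ 1 ≤ b ∧ b ≤ 2 * n)))

/-- an exchange with a big pot -/
theorem nest_big (hG : Geo n E r) {k s : ℕ} {B : Finset ℤ} {p : ℤ → ℕ}
    (hN : Nest n E r k s B p)
    {h : ℕ} (hh : h + k < n) {c : ℤ} (hc : IsPos (r h) c) {a b : ℤ} {e : ℕ}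
    (hB : BigEx n (r h) c a b) (he : e ≤ 1) {z : ℤ} (hz : z ∈ B)
    (hzc : z = c ∨ z = c + 1) :
    (-(E : ℤ) ≤ c + 1 + b ∧ c + 1 + b ≤ E ∧ ¬ Spot n r (c + 1 + b)) ∧
      Nest n E r k (s + 1) (B.erase z) (Ex p c a b e) := by
  have hhn : h < n := by omega
  have hr := hG.big h hhn
  have hE := hG.le h hhn
  have ha : 0 ≤ a := by
    unfold BigEx at hB
    omega
  have hb : 0 ≤ b := by
    unfold BigEx at hB
    omega
  have bd : -(E : ℤ) ≤ c - a ∧ c + 1 + b ≤ E := by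
    unfold BigEx at hB
    omega
  have hmem : ∀ j ∈ B, j = c ∨ j = c + 1 → j = z := by
    intro j hj hjc
    rcases hN.big_cases hG hhn hc with ⟨_, h1⟩ | ⟨_, h1⟩ | ⟨h1, h2⟩
    · rcases hjc with rfl | rfl
      · rcases hzc with rfl | rfl
        · rfl
        · exact absurd hz h1
      · exact absurd hj h1
    · rcases hjc with rfl | rfl
      · exact absurd hj h1
      · rcases hzc with rfl | rfl
        · exact absurd hz h1
        · rfl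
    · rcases hjc with rfl | rfl
      · exact absurd hj h1
      · exact absurd hj h2
  refine ⟨⟨by omega, bd.2, ?_⟩, ?_⟩
  · rintro ⟨h', hh', d, hd, hj⟩
    have hr' := hG.big h' hh'
    unfold BigEx at hB
    rcases hG.two hhn hh' with ⟨_, ht⟩ | rfl | ⟨_, ht⟩ <;>
    rcases hd with rfl | rfl | rfl | rfl <;> omega
  · refine nest_gen hN hh hc ha hb he (by omega) (Finset.erase_subset _ _) ?_ ?_ ?_ ?_
      bd.1 bd.2 ?_ ?_
    · intro hx
      rw [Finset.mem_erase] at hx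
      exact hx.1 (hmem _ hx.2 (Or.inl rfl))
    · intro hx
      rw [Finset.mem_erase] at hx
      exact hx.1 (hmem _ hx.2 (Or.inr rfl))
    · intro j hj h1 h2
      rw [Finset.mem_erase]
      exact ⟨by rintro rfl; omega, hj⟩
    · rw [Finset.card_erase_of_mem hz]
      have := hN.bud
      have := Finset.card_pos.2 ⟨z, hz⟩
      omega
    · intro h' hh' hk
      have ht := hG.lt h h' (by omega) hh'
      unfold BigEx at hB
      omega
    · intro h' hk d hd hdc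
      have hh' : h' < n := by omega
      have hr' := hG.big h' hh'
      unfold BigEx at hB
      have hfar : (d + 1 < c ∨ c + 1 < d) ∧ d + 1 ≠ c - a ∧ d ≠ c + 1 + b := by
        rcases hG.two hhn hh' with ⟨_, ht⟩ | rfl | ⟨_, ht⟩ <;>
        rcases hd with rfl | rfl | rfl | rfl <;> omega
      refine ⟨hfar.1, ?_⟩
      rcases ex_pair p c a b e hfar.1 hfar.2.1 hfar.2.2 with ⟨e1, e2⟩ | ⟨e1, e2⟩
      · exact ⟨0, by omega, by omega, e1, e2⟩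
      · exact ⟨1, by omega, by omega, e1, e2⟩

end Pool.Agent.Helper52.SowNim
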